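import Mathlib
import Pool.Agent.Helper18.EW.Final
import Pool.Agent.Helper18.UW.Main
import Pool.Agent.Helper94.AM.FinC

/-!
All plane linear systems `L(d; m_1, ..., m_s)` through general points with `m_1 ≤ (d + √N) / C`,
`N = ∑ m_i (m_i + 1)`, outside an exponentially small window, and the inequality of Nagata with weights.
-/

set_option autoImplicit false

namespace Pool.Agent.Results.MP_d3128a_ag.BalancedSystems

/-- There are `c, C > 0` with the following property. Let `m_0 ≥ m_1 ≥ ... ≥ m_{s-1} ≥ 0` (zero beyond),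
`N = ∑_{i<s} m_i (m_i + 1)`, `R = d + √N`. Suppose that

* `C m_0 ≤ R` and, for `θ = (R / m_0)^(1/3)`, or `θ = (R / m_0)^(2/3)` if all multiplicities are equal,
  `m_0 ≤ exp (c θ)` or `|(d + 1)(d + 2) - N| ≥ exp (- c θ) R²`, or
* there are weights `0 ≤ w_i ≤ 1` with `ℓ = √(∑ w_i²) ≥ C` and, for `θ = ℓ^(1/3)`, or `θ = ℓ^(2/3)` if all
  weights are equal, `∑ w_i m_i > (1 + exp (- c θ)) ℓ d`.

Then for `s` general points of the complex projective plane the space of the forms of degree `d` with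
multiplicity `≥ m_i` at the `i`-th point has the expected dimension. -/
theorem result :
    ∃ c C : ℝ, 0 < c ∧ 0 < C ∧ ∀ (s : ℕ) (m : ℕ → ℕ) (d : ℕ), Antitone m →
      (∀ i, s ≤ i → m i = 0) →
      ((∃ N R θ : ℝ, N = ∑ i ∈ Finset.range s, (m i : ℝ) * (m i + 1) ∧ R = d + √N ∧
          C * m 0 ≤ R ∧
          (θ = (R / m 0) ^ (1 / 3 : ℝ) ∨
            (∀ i < s, m i = m 0) ∧ θ = (R / m 0) ^ (2 / 3 : ℝ)) ∧
          ((m 0 : ℝ) ≤ Real.exp (c * θ) ∨
            Real.exp (-(c * θ)) * R ^ 2 ≤ |((d : ℝ) + 1) * (d + 2) - N|)) ∨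
        (∃ (w : ℕ → ℝ) (ℓ θ : ℝ), (∀ i < s, 0 ≤ w i ∧ w i ≤ 1) ∧
          ℓ = √(∑ i ∈ Finset.range s, w i ^ 2) ∧ C ≤ ℓ ∧
          (θ = ℓ ^ (1 / 3 : ℝ) ∨ (∀ i < s, w i = w 0) ∧ θ = ℓ ^ (2 / 3 : ℝ)) ∧
          (1 + Real.exp (-(c * θ))) * ℓ * d < ∑ i ∈ Finset.range s, w i * m i)) →
      ∃ G : MvPolynomial (Fin s × Fin 3) ℂ, G ≠ 0 ∧
        ∀ P : Fin s → Fin 3 → ℂ, (∀ i, P i ≠ 0) →
          MvPolynomial.eval (fun ij : Fin s × Fin 3 => P ij.1 ij.2) G ≠ 0 →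
          (Module.finrank ℂ
            (↥(MvPolynomial.homogeneousSubmodule (Fin 3) ℂ d ⊓
              ⨅ i : Fin s, Submodule.restrictScalars ℂ
                ((Ideal.span {g : MvPolynomial (Fin 3) ℂ |
                    g.IsHomogeneous 1 ∧ MvPolynomial.eval (P i) g = 0}) ^ (m (i : ℕ))
                  : Ideal (MvPolynomial (Fin 3) ℂ)))) : ℤ)
            = max ((Nat.choose (d + 2) 2 : ℤ) -
                ∑ i : Fin s, (Nat.choose (m (i : ℕ) + 1) 2 : ℤ)) 0 :=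
  Pool.Agent.Helper94.AM.mainC
    (Pool.Agent.Helper94.AM.uwi Pool.Agent.Helper18.UW.gCore) Pool.Agent.Helper18.EW.main_full

end Pool.Agent.Results.MP_d3128a_ag.BalancedSystems
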