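import Mathlib
import Pool.Agent.Helper97.Nag.Final
import Pool.Agent.Helper97.Nag.All1

/-!
Nagata's conjecture for `n ≥ 10` points of the complex projective plane and arbitrary
multiplicities.
-/

set_option autoImplicit false

namespace Pool.Agent.Results.MP_d3128a_ag.NagataConjecture

/-- Nagata's conjecture. Let `n ≥ 10`.
(1) If `(m_1 + ... + m_n)² ≥ n d²` and `m_1 + ... + m_n ≥ 1`, then for general points `P_i` the
space of the forms of degree `d` in the intersection of the `I(P_i) ^ m_i` is zero, and zero is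
its expected dimension `max (C(d+2,2) - ∑ C(m_i+1,2)) 0`.
(2) For very general `P_1, ..., P_n` (a countable set of nonzero polynomials does not vanish at
them) every nonzero form of degree `d ≥ 1` in the intersection of the `I(P_i) ^ m_i` satisfies
`m_1 + ... + m_n < √n d`. -/
theorem result :
    ∀ n : ℕ, 10 ≤ n →
    (∀ (d : ℕ) (m : Fin n → ℕ), n * d ^ 2 ≤ (∑ i, m i) ^ 2 → 1 ≤ ∑ i, m i →
      ∃ G : MvPolynomial (Fin n × Fin 3) ℂ, G ≠ 0 ∧
        ∀ P : Fin n → Fin 3 → ℂ, (∀ i, P i ≠ 0) →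
          MvPolynomial.eval (fun ij : Fin n × Fin 3 => P ij.1 ij.2) G ≠ 0 →
          ∀ D : ℤ, D = Module.finrank ℂ
            (↥(MvPolynomial.homogeneousSubmodule (Fin 3) ℂ d ⊓
              ⨅ i : Fin n, Submodule.restrictScalars ℂ
                ((Ideal.span {g : MvPolynomial (Fin 3) ℂ |
                    g.IsHomogeneous 1 ∧ MvPolynomial.eval (P i) g = 0}) ^ (m i)
                  : Ideal (MvPolynomial (Fin 3) ℂ)))) →
            D = 0 ∧
            D = max ((Nat.choose (d + 2) 2 : ℤ) - ∑ i, (Nat.choose (m i + 1) 2 : ℤ)) 0) ∧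
    ∃ 𝒢 : Set (MvPolynomial (Fin n × Fin 3) ℂ), 𝒢.Countable ∧ (0 ∉ 𝒢) ∧
      ∀ P : Fin n → Fin 3 → ℂ, (∀ i, P i ≠ 0) →
        (∀ G ∈ 𝒢, MvPolynomial.eval (fun ij : Fin n × Fin 3 => P ij.1 ij.2) G ≠ 0) →
        ∀ (d : ℕ) (m : Fin n → ℕ) (f : MvPolynomial (Fin 3) ℂ), 1 ≤ d →
          f.IsHomogeneous d → f ≠ 0 →
          (∀ i, f ∈ (Ideal.span {g : MvPolynomial (Fin 3) ℂ |
            g.IsHomogeneous 1 ∧ MvPolynomial.eval (P i) g = 0}) ^ (m i)) →
          (∑ i, (m i : ℝ)) < Real.sqrt n * d :=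
  fun n hn => Pool.Agent.Helper97.Nag.final1 Pool.Agent.Helper97.Nag.nGoals n hn

end Pool.Agent.Results.MP_d3128a_ag.NagataConjecture
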