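import Mathlib
import Pool.Agent.Helper27.UC.All4

/-!
Plane curves with general multiple points: non-speciality in every degree when the multiplicities `≥ 2` are equal
(at least `65` of them, or at least `40` and a multiple of `4`), and when the system is balanced and the
multiplicities are repeated.
-/

set_option autoImplicit false

namespace Pool.Agent.Results.MP_d3128a_ag.RepeatedMultiplicities

/-- For all `n` and all multiplicities `m₁, ..., mₙ` there is a degree `d₀` with the following property. For every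
degree `d` such that (1), (2) or (3) holds, the space of the forms of degree `d` with multiplicity at least `mᵢ` at the
`i`-th of `n` general points of the complex projective plane has dimension `max (C(d+2,2) - ∑ C(mᵢ+1,2), 0)`.
Let `J` be the set of the `i` with `mᵢ ≥ 2`, `N` its number of elements, and `Q` the sum of the `mᵢ²`, `i ∈ J`.
(1) All `mᵢ`, `i ∈ J`, are equal to a number `μ`, and `65 ≤ N`, or `4 ∣ N` and `40 ≤ N`, or `10 ≤ N` and one of:
`d ≠ d₀`, `N` is a square, `d² ≤ N μ²`, `N (μ+1)² ≤ (d+3)²`, `(√N + 1) μ ≤ |C(d+2,2) - N C(μ+1,2)|`.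
(2) For some integer `c ≥ 1` there are integers `m'ᵢ ≥ mᵢ` (`i ∈ J`) which take at most `c²` different values,
such that `10⁵ ∑ m'ᵢ (m'ᵢ - mᵢ) ≤ ∑ mᵢ` (sums over `J`) and, for every `i ∈ J`, `(100 c m'ᵢ)² ≤ Q ≤ (c m'ᵢ Nᵢ)²`, where
`Nᵢ` is the number of the `j ∈ J` with `m'ⱼ = m'ᵢ`.
(3) (A special case of (2), with `m' = m`.) For some integer `K`, `mᵢ ≤ K mⱼ` for all `i, j ∈ J`, and for every
`i ∈ J` at least `40000 K²` of the numbers `m₁, ..., mₙ` are equal to `mᵢ`. -/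
theorem result (n : ℕ) (m : Fin n → ℕ) : ∃ d₀ : ℕ, ∀ d : ℕ,
    ((∃ μ N : ℕ, (∀ i, 2 ≤ m i → m i = μ) ∧
        (Finset.univ.filter (fun i => 2 ≤ m i)).card = N ∧
        (65 ≤ N ∨ (4 ∣ N ∧ 40 ≤ N) ∨
          (10 ≤ N ∧ (d ≠ d₀ ∨ IsSquare N ∨ d ^ 2 ≤ N * μ ^ 2 ∨ N * (μ + 1) ^ 2 ≤ (d + 3) ^ 2 ∨
            (Real.sqrt N + 1) * μ ≤
              |(Nat.choose (d + 2) 2 : ℝ) - N * (Nat.choose (μ + 1) 2 : ℝ)|)))) ∨
      (∃ (c : ℕ) (m' : Fin n → ℕ), 1 ≤ c ∧
        ((Finset.univ.filter (fun i => 2 ≤ m i)).image m').card ≤ c ^ 2 ∧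
        10 ^ 5 * ∑ i ∈ Finset.univ.filter (fun i => 2 ≤ m i), m' i * (m' i - m i) ≤
          ∑ i ∈ Finset.univ.filter (fun i => 2 ≤ m i), m i ∧
        ∀ i, 2 ≤ m i → m i ≤ m' i ∧
          (100 * c * m' i) ^ 2 ≤ ∑ j ∈ Finset.univ.filter (fun j => 2 ≤ m j), m j ^ 2 ∧
          ∑ j ∈ Finset.univ.filter (fun j => 2 ≤ m j), m j ^ 2 ≤
            (c * (m' i * (Finset.univ.filter (fun j => 2 ≤ m j ∧ m' j = m' i)).card)) ^ 2) ∨
      (∃ K : ℕ, ∀ i, 2 ≤ m i →
        40000 * K ^ 2 ≤ (Finset.univ.filter (fun j => m j = m i)).card ∧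
          ∀ j, 2 ≤ m j → m i ≤ K * m j)) →
    ∃ G : MvPolynomial (Fin n × Fin 3) ℂ, G ≠ 0 ∧
      ∀ P : Fin n → Fin 3 → ℂ, (∀ i, P i ≠ 0) →
        MvPolynomial.eval (fun ij : Fin n × Fin 3 => P ij.1 ij.2) G ≠ 0 →
        (Module.finrank ℂ
          (↥(MvPolynomial.homogeneousSubmodule (Fin 3) ℂ d ⊓
            ⨅ i : Fin n, Submodule.restrictScalars ℂ
              ((Ideal.span {g : MvPolynomial (Fin 3) ℂ |
                  g.IsHomogeneous 1 ∧ MvPolynomial.eval (P i) g = 0}) ^ (m i)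
                : Ideal (MvPolynomial (Fin 3) ℂ)))) : ℤ)
          = max ((Nat.choose (d + 2) 2 : ℤ) - ∑ i, (Nat.choose (m i + 1) 2 : ℤ)) 0 := by
  obtain ⟨d₀, h⟩ := Pool.Agent.Helper27.UC.final3 n m
  exact ⟨d₀, fun d hd => h d hd⟩

end Pool.Agent.Results.MP_d3128a_ag.RepeatedMultiplicities
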