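import Mathlib
import Pool.Agent.Helper1.T1.All4

/-!
Plane curves through very general points with unequal multiplicities: Nagata's inequality.
-/

set_option autoImplicit false

namespace Pool.Agent.Results.MP_d3128a_ag.UnequalNagata

open Pool.Agent.Helper1.All (GenDim vdim)

open Pool.Agent.Helper1.T1 (Cells)

/-- `Cells k w h W H A`: `c` rectangles, `3 ≤ k`, `2 c ≤ (k - 1) (k - 2)`; the rectangle `l < c` has width
`W l` and height `H l` and is cut by guillotine cuts into rectangles of width `w i` and height `h i`,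
`i ∈ A l`; the sets `A l` are disjoint.
(1) NAGATA'S INEQUALITY FOR UNEQUAL MULTIPLICITIES. Let the `c` rectangles be cut into squares of sides
`μ i`, `D² = ∑ W l H l = ∑ (μ i)²`, `H l ≤ D/k ≤ W l`, `H l < W l`. For very general points `P_i` (a countable
set of nonzero polynomials, the same for all `k`, `μ` and all cuts, does not vanish at them) every nonzero form
of degree `d` with multiplicities `≥ m_i` at the `P_i` satisfies `∑ μ_i m_i ≤ D d`. The inequality is strict if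
`d ≥ 1` and `H l < D/k < W l` for all `l`.
(2) For general points there is no form of degree `d` with multiplicities `≥ m_i` if, for some `c` rectangles
cut into rectangles `w_i × h_i`, with `X_l = ∑_{i ∈ A l} min (w i) (h i) m_i`, `d H_l < k X_l` for all `l` and
`d² < ∑_l min (X_l²/(W_l H_l)) (d X_l/(k H_l))`; or `1 ≤ d`, `k X_l < d W_l` (all `l`), `d² ≤ ∑_l X_l²/(W_l H_l)`.
(3) For general points the dimension is the virtual one if, for some `c` rectangles cut into rectangles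
`w_i × h_i` (all the points), `m_i + 1 ≤ min (w i) (h i)`, `k H_l < d + 3` for all `l` and
`∑_l H_l max (W_l) ((d + 3)/k) < (d + 3)²`. -/
theorem result :
    (∀ n : ℕ, ∃ 𝒢 : Set (MvPolynomial (Fin n × Fin 3) ℂ), 𝒢.Countable ∧ (0 ∉ 𝒢) ∧
      ∀ P : Fin n → Fin 3 → ℂ, (∀ i, P i ≠ 0) →
        (∀ G ∈ 𝒢, MvPolynomial.eval (fun ij : Fin n × Fin 3 => P ij.1 ij.2) G ≠ 0) →
        ∀ (k c : ℕ) (μ : Fin n → ℝ) (W H : Fin c → ℝ) (A : Fin c → Finset (Fin n)) (D : ℝ),
          Cells k μ μ W H A → 0 < D → D ^ 2 = ∑ l, W l * H l →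
          (∀ l, k * H l ≤ D ∧ D ≤ k * W l ∧ H l < W l) →
        ∀ (d : ℕ) (m : Fin n → ℕ) (f : MvPolynomial (Fin 3) ℂ), f.IsHomogeneous d → f ≠ 0 →
          (∀ i, f ∈ (Ideal.span {g : MvPolynomial (Fin 3) ℂ |
            g.IsHomogeneous 1 ∧ MvPolynomial.eval (P i) g = 0}) ^ (m i)) →
          ∑ l, ∑ i ∈ A l, μ i * m i ≤ D * d ∧
            (1 ≤ d → (∀ l, k * H l < D ∧ D < k * W l) →
              ∑ l, ∑ i ∈ A l, μ i * m i < D * d)) ∧
    (∀ (n c k d : ℕ) (m : Fin n → ℕ) (w h : Fin n → ℝ) (W H : Fin c → ℝ)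
      (A : Fin c → Finset (Fin n)), Cells k w h W H A →
      (∀ l, d * H l < k * ∑ i ∈ A l, min (w i) (h i) * m i) →
      ((d : ℝ) ^ 2 < (∑ l, min ((∑ i ∈ A l, min (w i) (h i) * m i) ^ 2 / (W l * H l))
          (d * (∑ i ∈ A l, min (w i) (h i) * m i) / (k * H l))) ∨
        (1 ≤ d ∧ (∀ l, k * (∑ i ∈ A l, min (w i) (h i) * m i) < d * W l) ∧
          (d : ℝ) ^ 2 ≤ ∑ l, (∑ i ∈ A l, min (w i) (h i) * m i) ^ 2 / (W l * H l))) →
      GenDim d m 0 ∧ vdim d m ≤ 0) ∧
    ∀ (n c k d : ℕ) (m : Fin n → ℕ) (w h : Fin n → ℝ) (W H : Fin c → ℝ)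
      (A : Fin c → Finset (Fin n)), Cells k w h W H A → (∀ i, ∃ l, i ∈ A l) →
      (∀ i, (m i : ℝ) + 1 ≤ min (w i) (h i)) → (∀ l, k * H l < (d : ℝ) + 3) →
      ∑ l, H l * max (W l) (((d : ℝ) + 3) / k) < ((d : ℝ) + 3) ^ 2 →
      GenDim d m (vdim d m) ∧ 0 ≤ vdim d m :=
  ⟨Pool.Agent.Helper1.T1.allNef,
    fun _ _ k d m w h W H A hC h1 h2 => Pool.Agent.Helper1.T1.allCrit k d m w h W H A hC h1 h2,
    fun _ _ k d m w h W H A hC hA hm h1 h2 =>
      Pool.Agent.Helper1.T1.allReg k d m w h W H A hC hA hm h1 h2⟩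

end Pool.Agent.Results.MP_d3128a_ag.UnequalNagata
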